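import Pool.Agent.H23.LB.Targets

/-!
# MV: integrals of theta functions of ideal lattices
-/

set_option autoImplicit false

open NumberField NumberField.InfinitePlace NumberField.Units
  NumberField.Units.dirichletUnitTheorem MeasureTheory Set Filter Complex
open scoped nonZeroDivisors ENNReal Classical

namespace Pool.Agent.H65.GLA

open Pool.Agent.H23.LB Pool.Agent.H25.HK Pool.Agent.H28.RC

theorem card_index (K : Type) [Field K] [NumberField K] :
    Fintype.card (mixedEmbedding.index K) = Module.finrank ℚ K := by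
  rw [← mixedEmbedding.finrank K, Module.finrank_eq_card_basis (mixedEmbedding.stdBasis K)]

theorem one_le_Nf (K : Type) [Field K] [NumberField K] (f : Ideal (𝓞 K)) (hf : f ≠ ⊥) :
    (1 : ℝ) ≤ Nf K f := by
  unfold Nf
  have h : Ideal.absNorm f ≠ 0 := fun h => hf (Ideal.absNorm_eq_zero_iff.1 h)
  exact_mod_cast Nat.one_le_iff_ne_zero.2 h

theorem aux_le (C c b B N κ p p' q q' : ℝ) (hb : 0 < b) (hN : 0 < N) (hc : 0 < c) (hp : c ≤ p)
    (hp' : c ≤ p') (hq : c ≤ q) (hq' : c ≤ q') :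
    C * b ^ (-B) * (N * (q + q') + N ^ (1 + κ) * (p + p')) ≤
      max C (1 / c) * b ^ (-B) * (N * (q + q') + N ^ (1 + κ) * (p + p')) := by
  rw [mul_assoc, mul_assoc]
  refine mul_le_mul_of_nonneg_right (le_max_left _ _) ?_
  have h1 : 0 ≤ q + q' := by linarith
  have h2 : 0 ≤ p + p' := by linarith
  have h3 : 0 ≤ b ^ (-B) := (Real.rpow_pos_of_pos hb _).le
  have h4 : 0 ≤ N ^ (1 + κ) := (Real.rpow_pos_of_pos hN _).le
  exact mul_nonneg h3 (add_nonneg (mul_nonneg hN.le h1) (mul_nonneg h4 h2))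

theorem aux_one (C c p : ℝ) (hc : 0 < c) (hp : c ≤ p) : 1 ≤ max C (1 / c) * p := by
  have h1 : 0 < 1 / c := by positivity
  calc (1 : ℝ) = 1 / c * c := by field_simp
    _ ≤ max C (1 / c) * p :=
      mul_le_mul (le_max_right _ _) hp hc.le (h1.le.trans (le_max_right C (1 / c)))

theorem pf_MV (hNS : T_NS) (hMS : T_MS) (hLF : T_LF) (_ : T_FP) : T_MV := by
  intro n hn
  obtain ⟨B, hB⟩ := hMS n hn
  refine ⟨B, fun κ hκ hκ1 => ?_⟩
  obtain ⟨C, hC⟩ := hB κ hκ hκ1
  obtain ⟨c, hc, hcA⟩ := hLF κ hκ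
  refine ⟨max C (1 / c), ?_⟩
  intro K _ _ hK f M z b hf hM hb hb1
  have hf0 : (f : FI K) ≠ 0 := FractionalIdeal.coeIdeal_ne_zero.mpr hf
  obtain ⟨P, hP, hPd, hPT⟩ := hNS K M z hM
  obtain ⟨Q, hQ, hQd, hQT⟩ := hNS K ((f : FI K) * M) z (mul_ne_zero hf0 hM)
  have hcard : Fintype.card (mixedEmbedding.index K) = n := by rw [card_index, hK]
  have hne : Nonempty (mixedEmbedding.index K) := Fintype.card_pos_iff.1 (by rw [hcard]; exact hn)
  have hN := one_le_Nf K f hf
  have hN0 : (0 : ℝ) < Nf K f := lt_of_lt_of_le one_pos hN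
  have hPi : P⁻¹.PosDef := hP.inv
  have hQi : Q⁻¹.PosDef := hQ.inv
  have hPid : P⁻¹.det = 1 := by rw [Matrix.det_nonsing_inv, hPd, Ring.inverse_one]
  have hQid : Q⁻¹.det = 1 := by rw [Matrix.det_nonsing_inv, hQd, Ring.inverse_one]
  have AP : AF κ P = AK K κ M z := by
    unfold AF AK
    exact setIntegral_congr_fun measurableSet_Ioi fun T hT => by
      simp only [(hPT T hT).1]
  have APi : AF κ P⁻¹ = AK K κ (du K M) (-z) := by
    unfold AF AK
    exact setIntegral_congr_fun measurableSet_Ioi fun T hT => by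
      simp only [(hPT T hT).2]
  have AQ : AF κ Q = AK K κ ((f : FI K) * M) z := by
    unfold AF AK
    exact setIntegral_congr_fun measurableSet_Ioi fun T hT => by
      simp only [(hQT T hT).1]
  have AQi : AF κ Q⁻¹ = AK K κ (du K ((f : FI K) * M)) (-z) := by
    unfold AF AK
    exact setIntegral_congr_fun measurableSet_Ioi fun T hT => by
      simp only [(hQT T hT).2]
  have cP := hcA _ P hP hPd
  have cPi := hcA _ P⁻¹ hPi hPid
  have cQ := hcA _ Q hQ hQd
  have cQi := hcA _ Q⁻¹ hQi hQid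
  obtain ⟨⟨i1, b1⟩, i2, b2⟩ := hC _ P Q hP hQ hPd hQd hcard (Nf K f) b hN hb hb1
  have hCC := aux_le C c b B (Nf K f) κ _ _ _ _ hb hN0 hc cP cPi cQ cQi
  have e1 : EqOn (fun T => (Fs P (T * b / Nf K f) - 1) * Fs Q (T * b) * T ^ (κ / 2))
      (fun T => (FT K M z (T * b / Nf K f) - 1) *
        FT K ((f : FI K) * M) z (T * b) * T ^ (κ / 2)) (Ioi 1) := by
    intro T hT
    have hT0 : (0 : ℝ) < T := lt_trans one_pos hT
    simp only [(hPT _ (div_pos (mul_pos hT0 hb) hN0)).1,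
      (hQT _ (mul_pos hT0 hb)).1]
  have e2 : EqOn (fun T => Nf K f * ((Fs Q⁻¹ (T * b) - 1) * Fs P⁻¹ (T * b * Nf K f)) *
      T ^ (κ / 2)) (fun T => Nf K f * ((FT K (du K ((f : FI K) * M)) (-z) (T * b) - 1) *
      FT K (du K M) (-z) (T * b * Nf K f)) * T ^ (κ / 2)) (Ioi 1) := by
    intro T hT
    have hT0 : (0 : ℝ) < T := lt_trans one_pos hT
    simp only [(hPT _ (mul_pos (mul_pos hT0 hb) hN0)).2,
      (hQT _ (mul_pos hT0 hb)).2]
  rw [← AP, ← APi, ← AQ, ← AQi]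
  refine ⟨⟨i1.congr_fun e1 measurableSet_Ioi, ?_⟩, ⟨i2.congr_fun e2 measurableSet_Ioi, ?_⟩, ?_⟩
  · rw [← setIntegral_congr_fun measurableSet_Ioi e1]
    exact b1.trans hCC
  · rw [← setIntegral_congr_fun measurableSet_Ioi e2]
    exact b2.trans hCC
  · exact aux_one C c _ hc cP

end Pool.Agent.H65.GLA
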