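import Pool.Agent.H23.LB.Targets
import Pool.Agent.H63.HK.CS
import Pool.Agent.H63.HK.DU

/-!
# RR: multiples and duals of representatives of the ideal classes
-/

set_option autoImplicit false

open NumberField NumberField.InfinitePlace
open scoped nonZeroDivisors

namespace Pool.Agent.H65.GLA

open Pool.Agent.H23.LB Pool.Agent.H25.HK Pool.Agent.H28.RC
open Pool.Agent.H63.HK (nzI pri_iff)

section
variable (K : Type) [Field K] [NumberField K] {ι : Type} (M : ι → FI K)

/-- the class of a nonzero fractional ideal -/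
noncomputable def cl (N : FI K) (h : N ≠ 0) : ClassGroup (𝓞 K) :=
  ClassGroup.mk (K := K) (Units.mk0 N h)

theorem pri_cl (N : FI K) (h : N ≠ 0) (I : Ideal (𝓞 K)) (hI : I ≠ ⊥) :
    Pri K N I ↔ ClassGroup.mk0 (nzI K I hI) * cl K N h = 1 := by
  have := pri_iff K (Units.mk0 N h) I hI
  rwa [Units.val_mk0] at this

theorem reps_iff (hM : ∀ c, M c ≠ 0) :
    (∀ I : Ideal (𝓞 K), I ≠ ⊥ → ∃! c, Pri K (M c) I) ↔
      Function.Bijective fun c => cl K (M c) (hM c) := by
  have hI0 : ∀ I : (Ideal (𝓞 K))⁰, (I : Ideal (𝓞 K)) ≠ ⊥ := fun I =>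
    nonZeroDivisors.coe_ne_zero I
  constructor
  · intro h
    refine ⟨fun c c' hc => ?_, fun g => ?_⟩
    · obtain ⟨I, hI⟩ := ClassGroup.mk0_surjective (cl K (M c) (hM c))⁻¹
      obtain ⟨d, _, hd⟩ := h I (hI0 I)
      have e1 : c = d := hd c (by
        show Pri K (M c) I
        rw [pri_cl K (M c) (hM c) I (hI0 I)]
        show ClassGroup.mk0 I * _ = 1
        rw [hI, inv_mul_cancel])
      have e2 : c' = d := hd c' (by
        show Pri K (M c') I
        rw [pri_cl K (M c') (hM c') I (hI0 I)]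
        show ClassGroup.mk0 I * _ = 1
        rw [hI]
        have hc' : cl K (M c) (hM c) = cl K (M c') (hM c') := hc
        rw [hc', inv_mul_cancel])
      rw [e1, e2]
    · obtain ⟨I, hI⟩ := ClassGroup.mk0_surjective g⁻¹
      obtain ⟨c, hc, _⟩ := h I (hI0 I)
      refine ⟨c, ?_⟩
      have hc' : Pri K (M c) (I : Ideal (𝓞 K)) := hc
      rw [pri_cl K (M c) (hM c) I (hI0 I)] at hc'
      have h2 : ClassGroup.mk0 I * cl K (M c) (hM c) = 1 := hc'
      rw [hI, inv_mul_eq_one] at h2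
      exact h2.symm
  · intro h I hI
    obtain ⟨c, hc⟩ := h.2 (ClassGroup.mk0 (nzI K I hI))⁻¹
    refine ⟨c, ?_, fun d hd => ?_⟩
    · show Pri K (M c) I
      have hc' : cl K (M c) (hM c) = (ClassGroup.mk0 (nzI K I hI))⁻¹ := hc
      rw [pri_cl K (M c) (hM c) I hI, hc', mul_inv_cancel]
    · have hd' : Pri K (M d) I := hd
      rw [pri_cl K (M d) (hM d) I hI] at hd'
      refine h.1 ?_
      show cl K (M d) (hM d) = cl K (M c) (hM c)
      have hc' : cl K (M c) (hM c) = (ClassGroup.mk0 (nzI K I hI))⁻¹ := hc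
      rw [hc']
      exact (inv_eq_of_mul_eq_one_right hd').symm

theorem cl_mul (N N' : FI K) (h : N ≠ 0) (h' : N' ≠ 0) (h'' : N * N' ≠ 0) :
    cl K (N * N') h'' = cl K N h * cl K N' h' := by
  unfold cl
  rw [← map_mul]
  congr 1
  ext1
  simp

theorem cl_inv (N : FI K) (h : N ≠ 0) (h' : N⁻¹ ≠ 0) : cl K N⁻¹ h' = (cl K N h)⁻¹ := by
  unfold cl
  rw [← map_inv]
  congr 1
  ext1
  simp

end

theorem pf_RR : T_RR := by
  intro K _ _ ι M hM
  obtain ⟨h0, h1⟩ := hM
  have hb := (reps_iff K M h0).1 h1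
  refine ⟨fun f hf => ?_, ?_, ?_⟩
  · have hf0 : (f : FI K) ≠ 0 := FractionalIdeal.coeIdeal_ne_zero.mpr hf
    have hM' : ∀ c, (f : FI K) * M c ≠ 0 := fun c => mul_ne_zero hf0 (h0 c)
    refine ⟨hM', (reps_iff K _ hM').2 ?_⟩
    have e : (fun c => cl K ((f : FI K) * M c) (hM' c)) =
        (fun g => cl K (f : FI K) hf0 * g) ∘ fun c => cl K (M c) (h0 c) := by
      funext c
      exact cl_mul K _ _ hf0 (h0 c) _
    rw [e]
    exact (Group.mulLeft_bijective _).comp hb
  · have hM' : ∀ c, du K (M c) ≠ 0 := fun c => (Pool.Agent.H63.HK.du K (M c) (h0 c)).1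
    refine ⟨hM', (reps_iff K _ hM').2 ?_⟩
    have h10 : du K (1 : FI K) ≠ 0 := (Pool.Agent.H63.HK.du K 1 one_ne_zero).1
    have e : (fun c => cl K (du K (M c)) (hM' c)) =
        (fun g => g * cl K (du K 1) h10) ∘ (fun g => g⁻¹) ∘ fun c => cl K (M c) (h0 c) := by
      funext c
      have h3 : du K (M c) = (M c)⁻¹ * du K 1 := (Pool.Agent.H63.HK.du K (M c) (h0 c)).2.2.1
      have hi : (M c)⁻¹ ≠ 0 := inv_ne_zero (h0 c)
      show cl K (du K (M c)) (hM' c) = (cl K (M c) (h0 c))⁻¹ * cl K (du K 1) h10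
      rw [← cl_inv K (M c) (h0 c) hi, ← cl_mul K _ _ hi h10 (mul_ne_zero hi h10)]
      congr 1
    rw [e]
    exact (Group.mulRight_bijective _).comp (inv_involutive.bijective.comp hb)
  · intro _
    exact Fintype.card_of_bijective hb

end Pool.Agent.H65.GLA
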